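import Pool.Agent.N931.PN.Stm3
import Pool.Agent.H984R4.NP.ModelLem

/-!
PN/WBULK: spectral weight of the bulk, with noise (helper31 for the project PN of helper931).
-/

set_option autoImplicit false

namespace Pool.Agent.N31.PN.WBULK

open H974 H12S H389NS H984N H984P H342P Finset
open Pool.Agent.N116.EW
open H342L (cdist Curve)
open Pool.Agent.N931.PN

/-- the sum over the scales -/
lemma ana (C1 C2 : ℝ) (hC1 : 0 < C1) (hC2 : 0 < C2) : ∃ A : ℝ, 0 < A ∧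
    ∀ (δ : ℝ) (r w K : ℕ) (P : ℕ → ℝ), 0 < δ → 1 ≤ r → 2 ^ K * (64 * r) ≤ w →
    w < 2 ^ (K + 1) * (64 * r) → P 0 ≤ C1 * ((r : ℝ) / w) ^ (1 / 4 : ℝ) →
    (∀ k ≤ K, P (k + 1) ≤ C2 * (((r : ℝ) / ((16 * r * 2 ^ k : ℕ) : ℝ)) ^ (5 / 2 : ℝ) *
      ((((16 * r * 2 ^ k : ℕ) : ℝ)) / w) ^ (1 / 4 : ℝ))) →
    13 * δ * ((32 * r : ℕ) : ℝ) * √(P 0) + ∑ k ∈ range K, 26 * δ * 2 ^ k * ((32 * r : ℕ) : ℝ) * √(P (k + 1)) +
      2 * √(P (K + 1)) ≤ A * (δ * r * ((r : ℝ) / w) ^ (1 / 8 : ℝ) + ((r : ℝ) / w) ^ (5 / 4 : ℝ)) := by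
  set t : ℝ := (2 : ℝ) ^ (-(1 / 8) : ℝ) with ht
  have ht0 : 0 < t := by positivity
  have ht1 : t < 1 := Real.rpow_lt_one_of_one_lt_of_neg (by norm_num) (by norm_num)
  have ht1' : 0 < 1 - t := by linarith
  refine ⟨416 * √C1 + 52 * √C2 / (1 - t) + 2 * √C2 * (8 : ℝ) ^ (9 / 8 : ℝ), by positivity, ?_⟩
  intro δ r w K P hδ hr hK1 hK2 hP0 hP
  have hr0 : (0 : ℝ) < r := by exact_mod_cast hr
  have hw0 : (0 : ℝ) < w := by
    have : 0 < w := lt_of_lt_of_le (by positivity) hK1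
    exact_mod_cast this
  set q : ℝ := (r : ℝ) / w with hq
  have hq0 : 0 < q := by positivity
  -- square roots
  have h0 : √(P 0) ≤ √C1 * q ^ (1 / 8 : ℝ) := by
    refine (Real.sqrt_le_sqrt hP0).trans (le_of_eq ?_)
    rw [Real.sqrt_mul hC1.le, Real.sqrt_eq_rpow (q ^ (1 / 4 : ℝ)), ← Real.rpow_mul hq0.le]
    norm_num
  have hk : ∀ k ≤ K, √(P (k + 1)) ≤ √C2 * ((16 * 2 ^ k : ℝ) ^ (-(9 / 8) : ℝ) * q ^ (1 / 8 : ℝ)) := by
    intro k hk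
    have hM : (0 : ℝ) < 16 * 2 ^ k := by positivity
    have e1 : (r : ℝ) / ((16 * r * 2 ^ k : ℕ) : ℝ) = (16 * 2 ^ k : ℝ)⁻¹ := by
      push_cast
      field_simp
    have e2 : (((16 * r * 2 ^ k : ℕ) : ℝ)) / w = (16 * 2 ^ k : ℝ) * q := by
      rw [hq]; push_cast; field_simp
    refine (Real.sqrt_le_sqrt (hP k hk)).trans (le_of_eq ?_)
    rw [e1, e2, Real.sqrt_mul hC2.le, Real.mul_rpow hM.le hq0.le, Real.inv_rpow hM.le,
      ← Real.rpow_neg hM.le, ← mul_assoc, ← Real.rpow_add hM, Real.sqrt_mul (by positivity),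
      Real.sqrt_eq_rpow ((16 * 2 ^ k : ℝ) ^ (-(5 / 2) + 1 / 4 : ℝ)), Real.sqrt_eq_rpow (q ^ (1 / 4 : ℝ)),
      ← Real.rpow_mul hM.le, ← Real.rpow_mul hq0.le]
    norm_num
  -- the intermediate scales
  have hmid : ∀ k ∈ range K, 26 * δ * 2 ^ k * ((32 * r : ℕ) : ℝ) * √(P (k + 1)) ≤
      52 * √C2 * (δ * r * q ^ (1 / 8 : ℝ)) * t ^ k := by
    intro k hk'
    have h1 := hk k (Finset.mem_range.1 hk').le
    have hM : (0 : ℝ) < 16 * 2 ^ k := by positivity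
    have e3 : (2 : ℝ) ^ k * (16 * 2 ^ k : ℝ) ^ (-(9 / 8) : ℝ) ≤ 1 / 16 * t ^ k := by
      have e4 : (2 : ℝ) ^ k = 1 / 16 * (16 * 2 ^ k) := by ring
      have e5 : (16 * 2 ^ k : ℝ) * (16 * 2 ^ k : ℝ) ^ (-(9 / 8) : ℝ) = (16 * 2 ^ k : ℝ) ^ (-(1 / 8) : ℝ) := by
        nth_rewrite 1 [← Real.rpow_one (16 * 2 ^ k : ℝ)]
        rw [← Real.rpow_add hM]; norm_num
      have e6 : (16 * 2 ^ k : ℝ) ^ (-(1 / 8) : ℝ) ≤ t ^ k := by
        rw [Real.mul_rpow (by norm_num) (by positivity)]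
        have e7 : ((2 : ℝ) ^ k) ^ (-(1 / 8) : ℝ) = t ^ k := by
          rw [ht, ← Real.rpow_natCast, ← Real.rpow_mul (by norm_num), mul_comm,
            Real.rpow_mul (by norm_num), Real.rpow_natCast]
        rw [e7]
        have e8 : (16 : ℝ) ^ (-(1 / 8) : ℝ) ≤ 1 :=
          (Real.rpow_lt_one_of_one_lt_of_neg (by norm_num) (by norm_num)).le
        exact mul_le_of_le_one_left (by positivity) e8
      calc (2 : ℝ) ^ k * (16 * 2 ^ k : ℝ) ^ (-(9 / 8) : ℝ)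
          = 1 / 16 * ((16 * 2 ^ k : ℝ) * (16 * 2 ^ k : ℝ) ^ (-(9 / 8) : ℝ)) := by ring
        _ = 1 / 16 * (16 * 2 ^ k : ℝ) ^ (-(1 / 8) : ℝ) := by rw [e5]
        _ ≤ 1 / 16 * t ^ k := mul_le_mul_of_nonneg_left e6 (by norm_num)
    calc 26 * δ * 2 ^ k * ((32 * r : ℕ) : ℝ) * √(P (k + 1))
        ≤ 26 * δ * 2 ^ k * ((32 * r : ℕ) : ℝ) * (√C2 * ((16 * 2 ^ k : ℝ) ^ (-(9 / 8) : ℝ) * q ^ (1 / 8 : ℝ))) := by
          gcongr
      _ = 832 * √C2 * (δ * r * q ^ (1 / 8 : ℝ)) * ((2 : ℝ) ^ k * (16 * 2 ^ k : ℝ) ^ (-(9 / 8) : ℝ)) := by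
          push_cast; ring
      _ ≤ 832 * √C2 * (δ * r * q ^ (1 / 8 : ℝ)) * (1 / 16 * t ^ k) := by gcongr
      _ = 52 * √C2 * (δ * r * q ^ (1 / 8 : ℝ)) * t ^ k := by ring
  have hgeom : ∑ k ∈ range K, t ^ k ≤ 1 / (1 - t) := by
    rw [le_div_iff₀ ht1']
    have := geom_sum_mul_neg t K
    rw [this]
    have : 0 < t ^ K := by positivity
    linarith
  -- the last scale
  have hlast : 2 * √(P (K + 1)) ≤ 2 * √C2 * (8 : ℝ) ^ (9 / 8 : ℝ) * q ^ (5 / 4 : ℝ) := by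
    have h1 := hk K le_rfl
    have h2 : (8 * q)⁻¹ ≤ 16 * 2 ^ K := by
      have h3 : (w : ℝ) ≤ 2 ^ (K + 1) * (64 * r) := by exact_mod_cast hK2.le
      rw [hq, inv_le_iff_one_le_mul₀ (by positivity)]
      rw [pow_succ] at h3
      have : 1 = (w : ℝ) / w := by field_simp
      calc (1 : ℝ) = (w : ℝ) / w := this
        _ ≤ (2 ^ K * 2 * (64 * r)) / w := by gcongr
        _ = 16 * 2 ^ K * (8 * (r / w)) := by ring
    have h4 : (16 * 2 ^ K : ℝ) ^ (-(9 / 8) : ℝ) ≤ (8 * q) ^ (9 / 8 : ℝ) := by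
      have h5 : (16 * 2 ^ K : ℝ) ^ (-(9 / 8) : ℝ) ≤ ((8 * q)⁻¹) ^ (-(9 / 8) : ℝ) :=
        Real.rpow_le_rpow_of_nonpos (by positivity) h2 (by norm_num)
      refine h5.trans (le_of_eq ?_)
      rw [Real.inv_rpow (by positivity), Real.rpow_neg (by positivity), inv_inv]
    calc 2 * √(P (K + 1)) ≤ 2 * (√C2 * ((16 * 2 ^ K : ℝ) ^ (-(9 / 8) : ℝ) * q ^ (1 / 8 : ℝ))) := by gcongr
      _ ≤ 2 * (√C2 * ((8 * q) ^ (9 / 8 : ℝ) * q ^ (1 / 8 : ℝ))) := by gcongr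
      _ = 2 * √C2 * (8 : ℝ) ^ (9 / 8 : ℝ) * (q ^ (9 / 8 : ℝ) * q ^ (1 / 8 : ℝ)) := by
          rw [Real.mul_rpow (by norm_num) hq0.le]; ring
      _ = 2 * √C2 * (8 : ℝ) ^ (9 / 8 : ℝ) * q ^ (5 / 4 : ℝ) := by
          rw [← Real.rpow_add hq0]; norm_num
  have hfirst : 13 * δ * ((32 * r : ℕ) : ℝ) * √(P 0) ≤ 416 * √C1 * (δ * r * q ^ (1 / 8 : ℝ)) := by
    calc 13 * δ * ((32 * r : ℕ) : ℝ) * √(P 0) ≤ 13 * δ * ((32 * r : ℕ) : ℝ) * (√C1 * q ^ (1 / 8 : ℝ)) := by gcongr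
      _ = 416 * √C1 * (δ * r * q ^ (1 / 8 : ℝ)) := by push_cast; ring
  have hX : 0 ≤ δ * r * q ^ (1 / 8 : ℝ) := by positivity
  have hY : 0 ≤ q ^ (5 / 4 : ℝ) := by positivity
  calc 13 * δ * ((32 * r : ℕ) : ℝ) * √(P 0) + ∑ k ∈ range K, 26 * δ * 2 ^ k * ((32 * r : ℕ) : ℝ) * √(P (k + 1)) +
        2 * √(P (K + 1))
      ≤ 416 * √C1 * (δ * r * q ^ (1 / 8 : ℝ)) + ∑ k ∈ range K, 52 * √C2 * (δ * r * q ^ (1 / 8 : ℝ)) * t ^ k +
        2 * √C2 * (8 : ℝ) ^ (9 / 8 : ℝ) * q ^ (5 / 4 : ℝ) :=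
        add_le_add (add_le_add hfirst (Finset.sum_le_sum hmid)) hlast
    _ = 416 * √C1 * (δ * r * q ^ (1 / 8 : ℝ)) + 52 * √C2 * (δ * r * q ^ (1 / 8 : ℝ)) * ∑ k ∈ range K, t ^ k +
        2 * √C2 * (8 : ℝ) ^ (9 / 8 : ℝ) * q ^ (5 / 4 : ℝ) := by rw [Finset.mul_sum]
    _ ≤ 416 * √C1 * (δ * r * q ^ (1 / 8 : ℝ)) + 52 * √C2 * (δ * r * q ^ (1 / 8 : ℝ)) * (1 / (1 - t)) +
        2 * √C2 * (8 : ℝ) ^ (9 / 8 : ℝ) * q ^ (5 / 4 : ℝ) := by gcongr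
    _ ≤ (416 * √C1 + 52 * √C2 / (1 - t) + 2 * √C2 * (8 : ℝ) ^ (9 / 8 : ℝ)) *
        (δ * r * q ^ (1 / 8 : ℝ) + q ^ (5 / 4 : ℝ)) := by
        have a1 : 0 ≤ √C1 := Real.sqrt_nonneg _
        have a2 : 0 ≤ 52 * √C2 / (1 - t) := by positivity
        have a3 : 0 ≤ 2 * √C2 * (8 : ℝ) ^ (9 / 8 : ℝ) := by positivity
        have b1 := mul_nonneg a1 hY
        have b2 := mul_nonneg a2 hY
        have b3 := mul_nonneg a3 hX
        have e : 52 * √C2 * (δ * r * q ^ (1 / 8 : ℝ)) * (1 / (1 - t)) =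
          52 * √C2 / (1 - t) * (δ * r * q ^ (1 / 8 : ℝ)) := by ring
        rw [e]
        nlinarith [b1, b2, b3]

/-- coefficients -/
noncomputable def aa (δ : ℝ) (r K : ℕ) : ℕ → ℝ
  | 0 => 13 * δ * ((32 * r : ℕ) : ℝ)
  | (k + 1) => if k < K then 26 * δ * 2 ^ k * ((32 * r : ℕ) : ℝ) else 2

/-- events -/
def AA (D : Dm) (B : Finset Edg) (r : ℕ) : ℕ → Finset Edg → Prop
  | 0 => EX D B
  | (k + 1) => LG D B (2 ^ k * (32 * r))

lemma aa_nonneg {δ : ℝ} (hδ : 0 < δ) (r K k : ℕ) : 0 ≤ aa δ r K k := by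
  cases k with
  | zero => unfold aa; positivity
  | succ k => simp only [aa]; split_ifs <;> positivity

lemma sum_aa (δ : ℝ) (r K : ℕ) (X : ℕ → ℝ) :
    ∑ k ∈ Finset.range (K + 1 + 1), aa δ r K k * X k = 13 * δ * ((32 * r : ℕ) : ℝ) * X 0 +
      ∑ k ∈ Finset.range K, 26 * δ * 2 ^ k * ((32 * r : ℕ) : ℝ) * X (k + 1) + 2 * X (K + 1) := by
  rw [Finset.sum_range_succ', Finset.sum_range_succ]
  have e1 : ∑ k ∈ Finset.range K, aa δ r K (k + 1) * X (k + 1) =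
      ∑ k ∈ Finset.range K, 26 * δ * 2 ^ k * ((32 * r : ℕ) : ℝ) * X (k + 1) := by
    refine Finset.sum_congr rfl fun k hk => ?_
    have hk' := Finset.mem_range.1 hk
    simp only [aa, if_pos hk']
  have e2 : aa δ r K (K + 1) = 2 := by simp only [aa, lt_irrefl, if_false]
  have e3 : aa δ r K 0 = 13 * δ * ((32 * r : ℕ) : ℝ) := rfl
  rw [e1, e2, e3]
  ring

lemma exK {r w : ℕ} (hr : 1 ≤ r) (hw : 64 * r ≤ w) :
    ∃ K : ℕ, 2 ^ K * (64 * r) ≤ w ∧ w < 2 ^ (K + 1) * (64 * r) := by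
  obtain ⟨m, hm⟩ : ∃ m, m = w / (64 * r) := ⟨_, rfl⟩
  have h64 : 0 < 64 * r := by omega
  have hm1 : m ≠ 0 := by
    rw [hm]
    exact (Nat.div_pos hw h64).ne'
  have h1 : m * (64 * r) ≤ w := by rw [hm]; exact Nat.div_mul_le_self _ _
  have h2 : w < (m + 1) * (64 * r) := by
    rw [hm, mul_comm]
    exact Nat.lt_mul_div_succ w h64
  refine ⟨Nat.log 2 m, ?_, ?_⟩
  · exact (Nat.mul_le_mul_right _ (Nat.pow_log_le_self 2 hm1)).trans h1
  · have h3 : m < 2 ^ (Nat.log 2 m + 1) := Nat.lt_pow_succ_log_self (by norm_num) m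
    exact lt_of_lt_of_le h2 (Nat.mul_le_mul_right _ h3)

lemma hp_ok : Ok (hp : Edg → ℝ) := fun e => by
  unfold hp
  constructor <;> norm_num

theorem main (hBW2 : S_BW2) (hMK : S_MK) (hDIFB : S_DIFB) (hP2B : S_P2B) (hEXN : S_EXN)
    (hNXP : S_NXP) (hCNT : S_CNT) : S_WBULK := by
  classical
  intro R
  obtain ⟨κ, S0, δ0, hκ, hS0, hδ0, hδ01, hshape⟩ := R.shape
  obtain ⟨C1, hC1, hNX⟩ := hNXP
  obtain ⟨C2, hC2, hPB⟩ := hP2B
  obtain ⟨hcell, C3, hC3, hcnt⟩ := hCNT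
  obtain ⟨A, hA, hana⟩ := ana C1 C2 hC1 hC2
  refine ⟨max 4 (2 * A ^ 2 * C3 * S0 ^ 2), min δ0 S0,
    lt_of_lt_of_le (by norm_num) (le_max_left _ _), lt_min hδ0 hS0, ?_⟩
  intro δ b x hδ hδle hb hb1 hδb hx0 hx1 f hLp w r hw1 hw2 hr hxr N hN hbd
  have hsh := hshape δ hδ (hδle.trans (min_le_left _ _))
  have hOk : (R.dm δ).Ok := hsh.ok
  set D := R.dm δ with hD
  set h := hf R δ f with hh
  have hρ : ∀ e ∈ D.edges, 0 ≤ (fun _ : Edg => x) e ∧ (fun _ : Edg => x) e ≤ 1 :=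
    fun e _ => ⟨hx0, hx1.le⟩
  have hterm : ∀ T : Finset Edg, 0 ≤ (wal D.edges h T) ^ 2 * x ^ T.card :=
    fun T => mul_nonneg (sq_nonneg _) (pow_nonneg hx0 _)
  have hr0 : (0 : ℝ) < r := by exact_mod_cast hr
  have hw0 : (0 : ℝ) < w := lt_of_lt_of_le (by positivity) hw1
  have hC0 : (0 : ℝ) ≤ max 4 (2 * A ^ 2 * C3 * S0 ^ 2) := le_trans (by norm_num) (le_max_left _ _)
  set q : ℝ := (r : ℝ) / w with hq
  have hq0 : 0 < q := by positivity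
  have hrhs : 0 ≤ q ^ (1 / 4 : ℝ) + (b ^ 60)⁻¹ * q ^ (1 / 2 : ℝ) := by positivity
  -- the trivial bound
  have htriv : ∑ T ∈ D.edges.powerset.filter (fun T => ¬ Disjoint T N),
      (wal D.edges h T) ^ 2 * x ^ T.card ≤ 1 := by
    have e1 : E2 (fun _ : Edg => x) D.edges (fun F F' => h F * h F') =
        ∑ T ∈ D.edges.powerset, (wal D.edges h T) ^ 2 * x ^ T.card := by
      rw [E2_wal]
      refine Finset.sum_congr rfl fun T _ => ?_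
      rw [Finset.prod_const]; ring
    calc ∑ T ∈ D.edges.powerset.filter (fun T => ¬ Disjoint T N),
        (wal D.edges h T) ^ 2 * x ^ T.card
        ≤ ∑ T ∈ D.edges.powerset, (wal D.edges h T) ^ 2 * x ^ T.card :=
          Finset.sum_le_sum_of_subset_of_nonneg (Finset.filter_subset _ _) fun T _ _ => hterm T
      _ = E2 (fun _ : Edg => x) D.edges (fun F F' => h F * h F') := e1.symm
      _ ≤ E2 (fun _ : Edg => x) D.edges (fun _ _ => (1 : ℝ)) := by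
          refine E2_mono hρ fun F F' _ _ => ?_
          have a1 : |h F| ≤ 1 := hLp.2 _
          have a2 : |h F'| ≤ 1 := hLp.2 _
          calc h F * h F' ≤ |h F * h F'| := le_abs_self _
            _ = |h F| * |h F'| := abs_mul _ _
            _ ≤ 1 := mul_le_one₀ a1 (abs_nonneg _) a2
      _ = Ex hp D.edges (fun _ => (1 : ℝ)) := A6_left (fun _ : Edg => x) D.edges (fun _ => (1 : ℝ))
      _ = 1 := Ex_const _ _ _
  by_cases hbig : w < 256 * r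
  · have hqq : (1 / 256 : ℝ) ≤ q := by
      rw [hq, le_div_iff₀ hw0]
      have : (w : ℝ) < 256 * r := by exact_mod_cast hbig
      linarith
    have h4 : (1 / 4 : ℝ) ≤ q ^ (1 / 4 : ℝ) := by
      calc (1 / 4 : ℝ) = (1 / 256 : ℝ) ^ (1 / 4 : ℝ) := by
            rw [show (1 / 256 : ℝ) = (1 / 4 : ℝ) ^ (4 : ℝ) by norm_num, ← Real.rpow_mul (by norm_num)]
            norm_num
        _ ≤ q ^ (1 / 4 : ℝ) := Real.rpow_le_rpow (by norm_num) hqq (by norm_num)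
    have h5 : 0 ≤ (b ^ 60)⁻¹ * q ^ (1 / 2 : ℝ) := by positivity
    calc ∑ T ∈ D.edges.powerset.filter (fun T => ¬ Disjoint T N),
        (wal D.edges h T) ^ 2 * x ^ T.card ≤ 1 := htriv
      _ ≤ 4 * (q ^ (1 / 4 : ℝ) + (b ^ 60)⁻¹ * q ^ (1 / 2 : ℝ)) := by linarith
      _ ≤ max 4 (2 * A ^ 2 * C3 * S0 ^ 2) * (q ^ (1 / 4 : ℝ) + (b ^ 60)⁻¹ * q ^ (1 / 2 : ℝ)) :=
          mul_le_mul_of_nonneg_right (le_max_left _ _) hrhs
  push Not at hbig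
  rcases N.eq_empty_or_nonempty with hNe | ⟨e1, he1⟩
  · have : D.edges.powerset.filter (fun T => ¬ Disjoint T N) = ∅ := by
      rw [Finset.filter_eq_empty_iff]
      intro T _
      rw [hNe, not_not]
      exact Finset.disjoint_empty_right T
    rw [this, Finset.sum_empty]
    exact mul_nonneg hC0 hrhs
  -- the size of the rectangle
  obtain ⟨n, hn⟩ : ∃ n : ℝ, n = S0 / δ := ⟨_, rfl⟩
  rw [← hn] at hsh
  have hn1 : 1 ≤ n := by
    rw [hn, le_div_iff₀ hδ, one_mul]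
    exact hδle.trans (min_le_right _ _)
  have hnpos : 0 < n := by linarith
  have hrn : (r : ℝ) ≤ n := by
    have h1 := hbd e1 he1
    unfold Dm.bd at h1
    have h2 : (w : ℤ) ≤ (src e1).1 - D.l := h1.trans ((min_le_left _ _).trans (min_le_left _ _))
    have h3 : (w : ℤ) ≤ D.r - (src e1).1 := h1.trans ((min_le_left _ _).trans (min_le_right _ _))
    have h4 : (w : ℤ) ≤ D.r - D.l := by
      have : (0 : ℤ) ≤ w := Int.natCast_nonneg _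
      omega
    have h5 : (w : ℝ) ≤ ((D.r - D.l : ℤ) : ℝ) := by exact_mod_cast h4
    have h6 : (256 * r : ℝ) ≤ w := by exact_mod_cast hbig
    have := hsh.w_le
    linarith
  have hrw : r ≤ w := by omega
  obtain ⟨K, hK1, hK2⟩ := exK hr (by omega : 64 * r ≤ w)
  set Q : ℝ := A * (δ * r * q ^ (1 / 8 : ℝ) + q ^ (5 / 4 : ℝ)) with hQ
  -- one cell
  have hone : ∀ i ∈ N.image (N931.PN.cell r), ∑ T ∈ D.edges.powerset.filter
      (fun T => ¬ Disjoint T (N.filter (fun e => N931.PN.cell r e = i))),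
        (wal D.edges h T) ^ 2 * x ^ T.card ≤ Q ^ 2 := by
    intro i hi
    obtain ⟨e0, he0, rfl⟩ := Finset.mem_image.1 hi
    set B := N.filter (fun e => N931.PN.cell r e = N931.PN.cell r e0) with hB
    have hBN : B ⊆ D.edges := (Finset.filter_subset _ _).trans hN
    have hBblk : B ⊆ blk (src e0) r := fun e he => hcell r hr e0 e (Finset.mem_filter.1 he).2
    have hz : (w : ℤ) ≤ D.bd (src e0) := hbd e0 he0
    refine (hBW2 D.edges B hBN h x hx0 hx1.le).trans ?_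
    have h1 := hMK (fun _ => x) D.edges hρ (K + 1) (aa δ r K) (AA D B r)
      (fun F => h F - h (F \ B)) (aa_nonneg hδ r K) (fun F hF => by
        rw [sum_aa δ r K (fun k => ind (AA D B r k F))]
        exact hDIFB R δ hδ hOk f hLp.1 hLp.2 B F hF (32 * r) K (by omega))
    refine h1.trans ?_
    rw [sum_aa δ r K (fun k => √(P2 (fun _ : Edg => x) D.edges (AA D B r k) (AA D B r k)))]
    refine pow_le_pow_left₀ (by positivity) ?_ 2
    refine hana δ r w K (fun k => P2 (fun _ : Edg => x) D.edges (AA D B r k) (AA D B r k)) hδ hr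
      hK1 hK2 ?_ ?_
    · refine (P2_le_Pr hρ _ _).trans ?_
      refine (Pr_mono hp_ok (B := NX D (src e0) r w) fun F hF hE => ?_).trans
        (hNX D hOk (src e0) r w hr hrw hz)
      exact hEXN D hOk F B hF (src e0) r w hr hBblk hE
    · intro k hk
      obtain ⟨M, hM⟩ : ∃ M, M = r * 2 ^ k := ⟨_, rfl⟩
      have hk1 : 1 ≤ 2 ^ k := Nat.one_le_two_pow
      have hM1 : r ≤ M := by rw [hM]; exact Nat.le_mul_of_pos_right _ hk1
      have hM2 : 64 * M ≤ w := by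
        refine le_trans ?_ hK1
        rw [hM]
        have : 2 ^ k ≤ 2 ^ K := Nat.pow_le_pow_right (by norm_num) hk
        calc 64 * (r * 2 ^ k) = 2 ^ k * (64 * r) := by ring
          _ ≤ 2 ^ K * (64 * r) := Nat.mul_le_mul_right _ this
      have e1 : 16 * r * 2 ^ k = 16 * M := by rw [hM]; ring
      have e2 : 2 ^ k * (32 * r) = 32 * M := by rw [hM]; ring
      exact hPB D hOk B (src e0) r (16 * r * 2 ^ k) (2 ^ k * (32 * r)) w hr
        (by rw [e1]; omega) (by rw [e1, e2]; omega) (by rw [e1]; omega) hz hBblk x hx0 hx1 hxr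
  -- the union of the cells
  have hunion : ∑ T ∈ D.edges.powerset.filter (fun T => ¬ Disjoint T N),
      (wal D.edges h T) ^ 2 * x ^ T.card ≤ ∑ i ∈ N.image (N931.PN.cell r),
        ∑ T ∈ D.edges.powerset.filter (fun T => ¬ Disjoint T (N.filter (fun e => N931.PN.cell r e = i))),
          (wal D.edges h T) ^ 2 * x ^ T.card := by
    simp only [Finset.sum_filter]
    rw [Finset.sum_comm]
    refine Finset.sum_le_sum fun T _ => ?_
    split_ifs with hT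
    · exact Finset.sum_nonneg fun i _ => by split_ifs; exact le_rfl; exact hterm T
    · rw [Finset.not_disjoint_iff] at hT
      obtain ⟨e, heT, heN⟩ := hT
      have h1 : ∀ i ∈ N.image (N931.PN.cell r), (0 : ℝ) ≤ if ¬ Disjoint T (N.filter (fun e => N931.PN.cell r e = i))
          then (wal D.edges h T) ^ 2 * x ^ T.card else 0 := by
        intro i _
        split_ifs
        · exact le_rfl
        · exact hterm T
      refine le_trans ?_ (Finset.single_le_sum h1 (Finset.mem_image_of_mem (N931.PN.cell r) heN))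
      rw [if_pos]
      rw [Finset.not_disjoint_iff]
      exact ⟨e, heT, Finset.mem_filter.2 ⟨heN, rfl⟩⟩
  have hcard : ((N.image (N931.PN.cell r)).card : ℝ) ≤ C3 * (n / r) ^ 2 := by
    refine le_trans ?_ (hcnt n κ D hn1 hκ hsh r hr hrn).1
    exact_mod_cast Finset.card_le_card (Finset.image_subset_image hN)
  -- the conclusion
  have hy : (q ^ (1 / 8 : ℝ)) ^ 2 = q ^ (1 / 4 : ℝ) := by
    rw [← Real.rpow_natCast, ← Real.rpow_mul hq0.le]; norm_num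
  have hy2 : (q ^ (5 / 4 : ℝ)) ^ 2 = q ^ 2 * q ^ (1 / 2 : ℝ) := by
    rw [← Real.rpow_natCast, ← Real.rpow_mul hq0.le, ← Real.rpow_natCast, ← Real.rpow_add hq0]
    norm_num
  have hnw : n / r * q ≤ S0 / b ^ 30 := by
    have h1 : n / r * q = S0 / (δ * w) := by
      rw [hn, hq]; field_simp
    rw [h1]
    refine div_le_div_of_nonneg_left hS0.le (by positivity) ?_
    rw [div_le_iff₀ hδ] at hw1
    linarith
  have hnr : n / r * (δ * r) = S0 := by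
    rw [hn]; field_simp
  have hfin : C3 * (n / r) ^ 2 * Q ^ 2 ≤
      2 * A ^ 2 * C3 * S0 ^ 2 * (q ^ (1 / 4 : ℝ) + (b ^ 60)⁻¹ * q ^ (1 / 2 : ℝ)) := by
    have g1 : Q ^ 2 ≤ A ^ 2 * (2 * ((δ * r * q ^ (1 / 8 : ℝ)) ^ 2 + (q ^ (5 / 4 : ℝ)) ^ 2)) := by
      rw [hQ, mul_pow]
      refine mul_le_mul_of_nonneg_left ?_ (sq_nonneg _)
      nlinarith [sq_nonneg (δ * r * q ^ (1 / 8 : ℝ) - q ^ (5 / 4 : ℝ))]
    have g2 : (n / r * q) ^ 2 ≤ S0 ^ 2 * (b ^ 60)⁻¹ := by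
      have g3 : (n / r * q) ^ 2 ≤ (S0 / b ^ 30) ^ 2 := pow_le_pow_left₀ (by positivity) hnw 2
      refine g3.trans (le_of_eq ?_)
      rw [div_pow, ← pow_mul]
      norm_num
      rfl
    calc C3 * (n / r) ^ 2 * Q ^ 2
        ≤ C3 * (n / r) ^ 2 * (A ^ 2 * (2 * ((δ * r * q ^ (1 / 8 : ℝ)) ^ 2 + (q ^ (5 / 4 : ℝ)) ^ 2))) :=
          mul_le_mul_of_nonneg_left g1 (by positivity)
      _ = 2 * A ^ 2 * C3 * ((n / r * (δ * r)) ^ 2 * (q ^ (1 / 8 : ℝ)) ^ 2 +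
          (n / r) ^ 2 * (q ^ (5 / 4 : ℝ)) ^ 2) := by ring
      _ = 2 * A ^ 2 * C3 * (S0 ^ 2 * q ^ (1 / 4 : ℝ) + (n / r * q) ^ 2 * q ^ (1 / 2 : ℝ)) := by
          rw [hy, hy2, hnr]; ring
      _ ≤ 2 * A ^ 2 * C3 * (S0 ^ 2 * q ^ (1 / 4 : ℝ) + S0 ^ 2 * (b ^ 60)⁻¹ * q ^ (1 / 2 : ℝ)) := by
          gcongr
      _ = 2 * A ^ 2 * C3 * S0 ^ 2 * (q ^ (1 / 4 : ℝ) + (b ^ 60)⁻¹ * q ^ (1 / 2 : ℝ)) := by ring
  calc ∑ T ∈ D.edges.powerset.filter (fun T => ¬ Disjoint T N),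
        (wal D.edges h T) ^ 2 * x ^ T.card
      ≤ ∑ i ∈ N.image (N931.PN.cell r), ∑ T ∈ D.edges.powerset.filter
          (fun T => ¬ Disjoint T (N.filter (fun e => N931.PN.cell r e = i))),
          (wal D.edges h T) ^ 2 * x ^ T.card := hunion
    _ ≤ ∑ _i ∈ N.image (N931.PN.cell r), Q ^ 2 := Finset.sum_le_sum hone
    _ = ((N.image (N931.PN.cell r)).card : ℝ) * Q ^ 2 := by rw [Finset.sum_const, nsmul_eq_mul]
    _ ≤ C3 * (n / r) ^ 2 * Q ^ 2 := mul_le_mul_of_nonneg_right hcard (sq_nonneg _)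
    _ ≤ 2 * A ^ 2 * C3 * S0 ^ 2 * (q ^ (1 / 4 : ℝ) + (b ^ 60)⁻¹ * q ^ (1 / 2 : ℝ)) := hfin
    _ ≤ max 4 (2 * A ^ 2 * C3 * S0 ^ 2) * (q ^ (1 / 4 : ℝ) + (b ^ 60)⁻¹ * q ^ (1 / 2 : ℝ)) :=
        mul_le_mul_of_nonneg_right (le_max_right _ _) hrhs

end Pool.Agent.N31.PN.WBULK
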